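import Mathlib
import Pool.Agent.Lib_helper11.CUB4.General

/-!
Chains of translations between values which are known along squares.
-/

namespace Pool.Agent.Lib_helper48.PAIR

open Pool.Agent.Lib_helper11.CUB4

/-- `f(m + k) = σ f(m)` for most `m`; the differences of the consecutive terms of the sequence `m s`
are odd multiples of `k`, and `f(m s) = e` for most `s`. Then `σ = 1`. -/
theorem chain_odd {f : ℤ → ℤ} {A B : ℤ} {k : ℕ} {σ e : ℤ} {M E S : ℕ} (hk : 1 ≤ k)
    (hσ : σ = 1 ∨ σ = -1) (he : e = 1 ∨ e = -1) (hP : Per f A B k σ M) (m : ℕ → ℤ) (n : ℕ → ℕ)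
    (hn : ∀ s < S, Odd (n s)) (hm : ∀ s < S, m (s + 1) = m s + n s * k) (hA : A ≤ m 0)
    (hB : m S ≤ B)
    (hE : ((Finset.range (S + 1)).filter (fun s => f (m s) ≠ e)).card ≤ E)
    (hS : M + 2 * E < S) : σ = 1 := by
  classical
  -- monotonicity
  have step : ∀ s < S, m s < m (s + 1) := by
    intro s hs
    rw [hm s hs]
    have h1 : 1 ≤ n s := (hn s hs).pos
    have h2 : (0 : ℤ) < n s * k := by
      have : 0 < n s * k := Nat.mul_pos h1 hk
      exact_mod_cast this
    linarith
  have mono : ∀ a b, a ≤ b → b ≤ S → m a ≤ m b := by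
    intro a b hab
    induction b, hab using Nat.le_induction with
    | base => intro _; exact le_rfl
    | succ b hab ih =>
      intro hb
      exact (ih (by omega)).trans (step b (by omega)).le
  obtain ⟨Bad, hBad⟩ : ∃ Bad : Finset ℤ,
      Bad = (Finset.Icc A B).filter (fun m => f (m + k) ≠ σ * f m) := ⟨_, rfl⟩
  have hBadc : Bad.card ≤ M := by rw [hBad]; exact hP
  obtain ⟨T1, hT1⟩ : ∃ T1 : Finset ℕ,
      T1 = (Finset.range S).filter (fun s => ∃ v ∈ Bad, m s ≤ v ∧ v < m (s + 1)) := ⟨_, rfl⟩
  obtain ⟨T2, hT2⟩ : ∃ T2 : Finset ℕ,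
      T2 = (Finset.range S).filter (fun s => f (m s) ≠ e) := ⟨_, rfl⟩
  obtain ⟨T3, hT3⟩ : ∃ T3 : Finset ℕ,
      T3 = (Finset.range S).filter (fun s => f (m (s + 1)) ≠ e) := ⟨_, rfl⟩
  have c1 : T1.card ≤ M := by
    refine le_trans ?_ hBadc
    have hch : ∀ s ∈ T1, ∃ v ∈ Bad, m s ≤ v ∧ v < m (s + 1) := by
      intro s hs
      rw [hT1, Finset.mem_filter] at hs
      exact hs.2
    choose! g hg1 hg2 using hch
    apply Finset.card_le_card_of_injOn g
    · intro s hs
      exact hg1 s hs
    · intro a ha b hb hab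
      have ha' := hg2 a ha
      have hb' := hg2 b hb
      rw [Finset.mem_coe, hT1, Finset.mem_filter, Finset.mem_range] at ha hb
      rcases lt_trichotomy a b with hlt | heq | hlt
      · have := mono (a + 1) b (by omega) (by omega)
        rw [hab] at ha'
        linarith [ha'.2, hb'.1]
      · exact heq
      · have := mono (b + 1) a (by omega) (by omega)
        rw [← hab] at hb'
        linarith [hb'.2, ha'.1]
  have c2 : T2.card ≤ E := by
    refine le_trans (Finset.card_le_card ?_) hE
    rw [hT2]
    intro s hs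
    rw [Finset.mem_filter, Finset.mem_range] at hs ⊢
    exact ⟨by omega, hs.2⟩
  have c3 : T3.card ≤ E := by
    refine le_trans ?_ hE
    apply Finset.card_le_card_of_injOn (fun s => s + 1)
    · intro s hs
      rw [Finset.mem_coe, hT3, Finset.mem_filter, Finset.mem_range] at hs
      rw [Finset.mem_coe, Finset.mem_filter, Finset.mem_range]
      exact ⟨Nat.succ_lt_succ hs.1, hs.2⟩
    · intro a _ b _ hab
      exact Nat.succ_injective hab
  obtain ⟨s, hs, hs'⟩ : ∃ s ∈ Finset.range S, s ∉ T1 ∪ T2 ∪ T3 := by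
    by_contra hcon
    push Not at hcon
    have h1 := Finset.card_le_card (fun s hs => hcon s hs)
    have h2 := (Finset.card_union_le (T1 ∪ T2) T3).trans
      (Nat.add_le_add_right (Finset.card_union_le T1 T2) _)
    rw [Finset.card_range] at h1
    omega
  rw [Finset.mem_range] at hs
  simp only [Finset.mem_union, not_or, hT1, hT2, hT3, Finset.mem_filter, Finset.mem_range, not_and,
    not_exists, not_lt, not_not] at hs'
  obtain ⟨⟨g1, g2⟩, g3⟩ := hs'
  have g2 := g2 hs
  have g3 := g3 hs
  have g1 := g1 hs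
  have hms := hm s hs
  have hlow : A ≤ m s := hA.trans (mono 0 s (Nat.zero_le _) hs.le)
  have hhigh : m (s + 1) ≤ B := (mono (s + 1) S (by omega) le_rfl).trans hB
  have walk : ∀ i ≤ n s, f (m s + i * k) = σ ^ i * f (m s) := by
    intro i
    induction i with
    | zero => intro _; simp
    | succ i ih =>
      intro hi
      have h1 := ih (by omega)
      have hik : (0 : ℤ) ≤ i * k := by positivity
      have h2 : m s + i * k < m (s + 1) := by
        rw [hms]
        have : ((i * k : ℕ) : ℤ) < ((n s * k : ℕ) : ℤ) := by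
          exact_mod_cast Nat.mul_lt_mul_of_pos_right (by omega) hk
        push_cast at this
        linarith
      have h3 : f (m s + i * k + k) = σ * f (m s + i * k) := by
        by_contra hne
        have hmem : m s + i * k ∈ Bad := by
          rw [hBad, Finset.mem_filter, Finset.mem_Icc]
          exact ⟨⟨by linarith, by linarith⟩, hne⟩
        have := g1 _ hmem (by linarith)
        linarith
      have e1 : m s + ((i + 1 : ℕ) : ℤ) * k = m s + i * k + k := by push_cast; ring
      rw [e1, h3, h1, pow_succ]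
      ring
  have h1 := walk (n s) le_rfl
  rw [← hms, g2, g3] at h1
  rcases hσ with h2 | h2
  · exact h2
  · rw [h2, (hn s hs).neg_one_pow] at h1
    rcases he with h3 | h3 <;> rw [h3] at h1 <;> norm_num at h1

end Pool.Agent.Lib_helper48.PAIR
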