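import Mathlib
import Pool.Agent.Lib_helper48.CNT.Final

/-!
Majority signs with a window `[x, C x^k]`.
-/

namespace Pool.Agent.Lib_helper48.PAIR

open Pool.Agent.Lib_helper11.CUB Pool.Agent.Lib_helper3.QUI Pool.Agent.Lib_helper48.CNT Polynomial
open Pool.Agent.Lib_helper48.EVEN (Gen gen_affine gen_sq affine_not_mem)

variable {K : Type*} [Field K] [NumberField K]

/-- The relation `Q` between the majority signs in the windows `[x, C x^k]`. -/
def EvE (k : ℕ) (L : List K) (Q : (ℕ → ℤ) → (K → ℤ) → Prop) : Prop :=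
  ∃ D : ℕ, 1 ≤ D ∧ ∃ C : ℚ, 2 ≤ C ∧ ∀ h : ℕ → ℤ, CM h → ∀ x : ℕ, 1 ≤ x → ∀ e : K → ℤ,
    (∀ z ∈ L, e z = 1 ∨ e z = -1) → (∀ z ∈ L, Maj h D x (C * (x : ℚ) ^ k) z (e z)) → Q h e

theorem EvE.and {k : ℕ} {L L' : List K} {Q Q' : (ℕ → ℤ) → (K → ℤ) → Prop} (h1 : EvE k L Q)
    (h2 : EvE k L' Q') : EvE k (L ++ L') (fun h e => Q h e ∧ Q' h e) := by
  obtain ⟨D, hD, C, hC, h1⟩ := h1
  obtain ⟨D', hD', C', hC', h2⟩ := h2
  have hDD : 1 ≤ D * D' := Nat.mul_pos hD hD'
  refine ⟨D * D', hDD, max C C', hC.trans (le_max_left _ _), fun h hh x hx e hs hall => ?_⟩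
  have hx0 : (0 : ℚ) ≤ (x : ℚ) ^ k := by positivity
  have k1 : C * (x : ℚ) ^ k ≤ max C C' * (x : ℚ) ^ k :=
    mul_le_mul_of_nonneg_right (le_max_left _ _) hx0
  have k2 : C' * (x : ℚ) ^ k ≤ max C C' * (x : ℚ) ^ k :=
    mul_le_mul_of_nonneg_right (le_max_right _ _) hx0
  exact ⟨h1 h hh x hx e (fun z hz => hs z (List.mem_append_left _ hz)) fun z hz =>
      (hall z (List.mem_append_left _ hz)).mono hD hDD (dvd_mul_right _ _) k1,
    h2 h hh x hx e (fun z hz => hs z (List.mem_append_right _ hz)) fun z hz =>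
      (hall z (List.mem_append_right _ hz)).mono hD' hDD (dvd_mul_left _ _) k2⟩

theorem EvE.imp {k : ℕ} {L : List K} {Q Q' : (ℕ → ℤ) → (K → ℤ) → Prop} (h1 : EvE k L Q)
    (h2 : ∀ h : ℕ → ℤ, CM h → ∀ e : K → ℤ, Q h e → Q' h e) : EvE k L Q' := by
  obtain ⟨D, hD, C, hC, h1⟩ := h1
  exact ⟨D, hD, C, hC, fun h hh x hx e hs hall => h2 h hh e (h1 h hh x hx e hs hall)⟩

theorem EvE.sub {k : ℕ} {L L' : List K} {Q : (ℕ → ℤ) → (K → ℤ) → Prop} (h1 : EvE k L Q)
    (h2 : ∀ z ∈ L, z ∈ L') : EvE k L' Q := by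
  obtain ⟨D, hD, C, hC, h1⟩ := h1
  exact ⟨D, hD, C, hC, fun h hh x hx e hs hall => h1 h hh x hx e (fun z hz => hs z (h2 z hz))
    fun z hz => hall z (h2 z hz)⟩

/-- From majority signs to values of minimal polynomials. -/
theorem windows_exp (k : ℕ) (hd : Odd (Module.finrank ℚ K)) (h1 : 1 < Module.finrank ℚ K)
    {L : List K} (hG : ∀ y ∈ L, Gen y) {Q : (ℕ → ℤ) → ℤ} (hE : EvE k L (fun h _ => Q h = 1)) :
    ∃ m : ℕ, 1 ≤ m ∧ ∀ v : ℕ, 1 ≤ v → m ∣ v → (∀ z ∈ L, IsIntegral ℤ ((v : K) * z)) ∧ ∃ C : ℕ,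
      ∀ h : ℕ → ℤ, CM h → Q h ≠ 1 → ∀ x : ℕ, 1 ≤ x → ∃ z ∈ L, ∀ s : ℤ, (s = 1 ∨ s = -1) →
        x < 4 * ((Finset.Icc x (C * x ^ k)).filter (fun n : ℕ =>
          h ((minpoly ℤ ((v : K) * z)).eval (n : ℤ)).natAbs = s)).card := by
  obtain ⟨D, hD, C, hC, H⟩ := hE
  obtain ⟨m, hm, hmi⟩ := common_int L
  refine ⟨D * m, Nat.mul_pos hD hm, fun v hv hmv => ?_⟩
  have hDv : D ∣ v := (dvd_mul_right _ _).trans hmv
  have hint : ∀ z ∈ L, IsIntegral ℤ ((v : K) * z) := by
    intro z hz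
    obtain ⟨k, rfl⟩ := (dvd_mul_left _ _).trans hmv
    have natInt : IsIntegral ℤ (k : K) := by
      have := isIntegral_algebraMap (R := ℤ) (A := K) (x := (k : ℤ))
      simpa using this
    have e : ((m * k : ℕ) : K) * z = (k : K) * ((m : K) * z) := by push_cast; ring
    rw [e]; exact natInt.mul (hmi z hz)
  refine ⟨hint, ?_⟩
  obtain ⟨C', hC'⟩ := exists_nat_ge ((v : ℚ) * C)
  refine ⟨C', fun h hh hQ x hx => ?_⟩
  by_contra hcon
  push Not at hcon
  choose! s hs hcard using hcon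
  have hvq : (1 : ℚ) ≤ v := by exact_mod_cast hv
  have hxq : (1 : ℚ) ≤ x := by exact_mod_cast hx
  have hxk : (0 : ℚ) ≤ (x : ℚ) ^ k := by positivity
  have hDq : (0 : ℚ) < D := by exact_mod_cast hD
  have hvv := hh.values v hv
  obtain ⟨j, hj⟩ := hDv
  have hj1 : 1 ≤ j := by
    rcases Nat.eq_zero_or_pos j with h0 | h0
    · rw [h0, mul_zero] at hj; omega
    · exact h0
  have hjq : (1 : ℚ) ≤ j := by exact_mod_cast hj1
  apply hQ
  refine H h hh x hx (fun z => -(h v * s z)) (fun z hz => ?_) (fun z hz => ?_)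
  · rcases hvv with a | a <;> rcases hs z hz with b | b <;> rw [a, b] <;> norm_num
  · refine le_trans (Nat.mul_le_mul_left 4 ?_) (hcard z hz)
    apply Finset.card_le_card_of_injOn (fun m : ℤ => ((j : ℤ) * m).toNat)
    · intro m hm
      rw [Finset.mem_coe, mem_exc] at hm
      obtain ⟨⟨b1, b2⟩, b3⟩ := hm
      have hm0 : (0 : ℚ) ≤ m := by
        have : (0 : ℚ) ≤ D * x := by positivity
        linarith
      have hm0' : 0 ≤ m := by exact_mod_cast hm0
      have hjm : 0 ≤ (j : ℤ) * m := mul_nonneg (Int.natCast_nonneg _) hm0'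
      obtain ⟨n, hn⟩ := Int.eq_ofNat_of_zero_le hjm
      have hnq : (n : ℚ) = j * m := by
        have : ((n : ℤ) : ℚ) = (((j : ℤ) * m : ℤ) : ℚ) := by rw [hn]
        push_cast at this; exact this
      have hnv : ((n : ℤ) : ℚ) = v * (((1 : ℤ) : ℚ) * ((m : ℚ) / D)) := by
        rw [Int.cast_natCast, hnq, hj]; push_cast; field_simp
      have hval := G_scaled' hd hh ((hG z hz).bot h1) (hG z hz) hv (hint z hz) (e := 1)
        (Or.inl rfl) (k := (m : ℚ) / D) (n := (n : ℤ)) hnv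
      have e1 : (((1 * v : ℤ) : ℤ) : K) = (v : K) := by push_cast; ring
      rw [e1] at hval
      show ((j : ℤ) * m).toNat ∈ _
      rw [hn, Int.toNat_natCast, Finset.mem_coe, Finset.mem_filter, Finset.mem_Icc]
      refine ⟨⟨?_, ?_⟩, ?_⟩
      · have : (x : ℚ) ≤ n := by
          rw [hnq]
          have h2 : (x : ℚ) ≤ m := by
            have hD1 : (1 : ℚ) ≤ D := by exact_mod_cast hD
            nlinarith
          nlinarith
        exact_mod_cast this
      · have : (n : ℚ) ≤ ((C' * x ^ k : ℕ) : ℚ) := by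
          push_cast
          rw [hnq]
          calc (j : ℚ) * m ≤ j * (D * (C * (x : ℚ) ^ k)) :=
                mul_le_mul_of_nonneg_left b2 (by linarith)
            _ = (v * C) * (x : ℚ) ^ k := by rw [hj]; push_cast; ring
            _ ≤ C' * (x : ℚ) ^ k := mul_le_mul_of_nonneg_right hC' hxk
        exact_mod_cast this
      · rw [hval]
        have g := G_vals' hh ((hG z hz).bot h1) ((m : ℚ) / D)
        rcases hvv with a | a <;> rcases hs z hz with b | b <;> rcases g with g | g <;>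
          rw [a, b, g] at b3 <;> rw [a, b, g] <;>
          first | decide | exact absurd (by decide) b3
    · intro a ha b hb hab
      have ha0 : 0 ≤ (j : ℤ) * a := by
        rw [Finset.mem_coe, mem_exc] at ha
        have : (0 : ℚ) ≤ a := by
          have : (0 : ℚ) ≤ D * x := by positivity
          linarith [ha.1.1]
        exact mul_nonneg (Int.natCast_nonneg _) (by exact_mod_cast this)
      have hb0 : 0 ≤ (j : ℤ) * b := by
        rw [Finset.mem_coe, mem_exc] at hb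
        have : (0 : ℚ) ≤ b := by
          have : (0 : ℚ) ≤ D * x := by positivity
          linarith [hb.1.1]
        exact mul_nonneg (Int.natCast_nonneg _) (by exact_mod_cast this)
      have h2 : (j : ℤ) * a = (j : ℤ) * b := by
        have h3 : ((j : ℤ) * a).toNat = ((j : ℤ) * b).toNat := hab
        have h4 := congrArg (fun n : ℕ => (n : ℤ)) h3
        simp only [Int.toNat_of_nonneg ha0, Int.toNat_of_nonneg hb0] at h4
        exact h4
      have hj0 : (j : ℤ) ≠ 0 := by exact_mod_cast (by omega : j ≠ 0)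
      exact mul_left_cancel₀ hj0 h2

/-- Values of arguments outside of the exceptional set. -/
theorem count_args {h : ℕ → ℤ} {D : ℕ} (hD : 1 ≤ D) {x X : ℚ} {z : K} {ε : ℤ} (S : ℕ)
    (arg : ℕ → ℚ) (hinj : ∀ s s', arg s = arg s' → s = s') (hlat : ∀ s, ∃ m : ℤ, (m : ℚ) = D * arg s)
    (hlow : ∀ s ≤ S, x ≤ arg s) (hhigh : ∀ s ≤ S, arg s ≤ X) :
    ((Finset.range (S + 1)).filter (fun s => G h z (arg s) ≠ ε)).card ≤
      (exc h D x X z ε).card := by
  choose m hm using hlat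
  have hDq : (0 : ℚ) < D := by exact_mod_cast hD
  apply Finset.card_le_card_of_injOn m
  · intro s hs
    rw [Finset.mem_coe, Finset.mem_filter, Finset.mem_range] at hs
    rw [Finset.mem_coe, mem_exc, hm s, mul_div_cancel_left₀ _ hDq.ne']
    exact ⟨⟨mul_le_mul_of_nonneg_left (hlow s (by omega)) hDq.le,
      mul_le_mul_of_nonneg_left (hhigh s (by omega)) hDq.le⟩, hs.2⟩
  · intro a _ b _ hab
    apply hinj
    have h1 : (D : ℚ) * arg a = D * arg b := by rw [← hm a, ← hm b, hab]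
    exact mul_left_cancel₀ hDq.ne' h1

end Pool.Agent.Lib_helper48.PAIR
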