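import Mathlib
import Pool.Agent.Lib_helper11.CUB.Square
import Pool.Agent.Lib_helper11.CUB4.General

/-!
Cubic fields: `t` and all the squares `(t + r)^2` are quadratic polynomials in `w = t^2 + X t`.
-/

namespace Pool.Agent.Lib_helper48.PAIR

open Pool.Agent.Lib_helper11.CUB Pool.Agent.Lib_helper3.QUI Pool.Agent.Lib_helper48.CNT Polynomial
open Pool.Agent.Lib_helper48.EVEN (Gen gen_affine gen_sq affine_not_mem)
open Pool.Agent.Lib_helper11.CUB4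

variable {K : Type*} [Field K] [NumberField K]

/-- The cubic equation of `t`. -/
theorem cubic_rel (h3 : Module.finrank ℚ K = 3) {t : K} (ht : t ∉ (⊥ : IntermediateField ℚ K)) :
    ∃ e1 e2 e3 : ℚ, t ^ 3 = (e1 : K) * t ^ 2 - e2 * t + e3 := by
  obtain ⟨u, v, w, h⟩ := (Ind_sq h3 ht).span h3 (t ^ 3)
  exact ⟨v, -w, u, by rw [h]; push_cast; ring⟩

/-- `w = t^2 + X t` is not rational. -/
theorem node_not_mem (h3 : Module.finrank ℚ K = 3) {t : K}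
    (ht : t ∉ (⊥ : IntermediateField ℚ K)) (X : ℚ) :
    t ^ 2 + (X : K) * t ∉ (⊥ : IntermediateField ℚ K) := by
  intro h
  obtain ⟨r, hr⟩ := mem_bot_iff.1 h
  have := Ind_sq h3 ht (-r) 1 X (by push_cast; rw [hr]; ring)
  exact one_ne_zero this.2.1

/-- The negative of the value at `X` of the cubic polynomial. -/
def Phi (e1 e2 e3 X : ℚ) : ℚ := -(X ^ 3 + 2 * e1 * X ^ 2 + (e1 ^ 2 + e2) * X + (e1 * e2 - e3))

theorem Phi_pos (e1 e2 e3 : ℚ) : ∃ R0 : ℚ, 1 ≤ R0 ∧ ∀ Y : ℚ, R0 ≤ Y → 0 < Phi e1 e2 e3 (-Y) := by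
  refine ⟨1 + |2 * e1| + |e1 ^ 2 + e2| + |e1 * e2 - e3|, by
    linarith [abs_nonneg (2 * e1), abs_nonneg (e1 ^ 2 + e2), abs_nonneg (e1 * e2 - e3)],
    fun Y hY => ?_⟩
  have a1 := abs_nonneg (2 * e1)
  have a2 := abs_nonneg (e1 ^ 2 + e2)
  have a3 := abs_nonneg (e1 * e2 - e3)
  have hY1 : 1 ≤ Y := by linarith
  have hYY : Y ≤ Y ^ 2 := by nlinarith
  have b1 : 2 * e1 * Y ^ 2 ≤ |2 * e1| * Y ^ 2 :=
    mul_le_mul_of_nonneg_right (le_abs_self _) (sq_nonneg _)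
  have b2 : -((e1 ^ 2 + e2) * Y) ≤ |e1 ^ 2 + e2| * Y ^ 2 := by
    have h1 : -((e1 ^ 2 + e2) * Y) ≤ |e1 ^ 2 + e2| * Y := by
      rw [← neg_mul]
      exact mul_le_mul_of_nonneg_right (neg_le_abs _) (by linarith)
    exact h1.trans (mul_le_mul_of_nonneg_left hYY a2)
  have b3 : e1 * e2 - e3 ≤ |e1 * e2 - e3| * Y ^ 2 := by
    have h1 : |e1 * e2 - e3| * 1 ≤ |e1 * e2 - e3| * Y ^ 2 :=
      mul_le_mul_of_nonneg_left (by linarith) a3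
    linarith [le_abs_self (e1 * e2 - e3)]
  have b4 : (1 + |2 * e1| + |e1 ^ 2 + e2| + |e1 * e2 - e3|) * Y ^ 2 ≤ Y * Y ^ 2 :=
    mul_le_mul_of_nonneg_right hY (sq_nonneg _)
  have b5 : 0 < Y ^ 2 := by positivity
  unfold Phi
  have e : -((-Y) ^ 3 + 2 * e1 * (-Y) ^ 2 + (e1 ^ 2 + e2) * (-Y) + (e1 * e2 - e3)) =
      Y * Y ^ 2 - 2 * e1 * Y ^ 2 + (e1 ^ 2 + e2) * Y - (e1 * e2 - e3) := by ring
  rw [e]
  linarith

/-- The representations of `t` and of `(t + r)^2` by `w = t^2 + X t`. -/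
theorem node_links {t : K} {e1 e2 e3 : ℚ} (rel : t ^ 3 = (e1 : K) * t ^ 2 - e2 * t + e3) {X : ℚ}
    (hΦ : 0 < Phi e1 e2 e3 X) (R : List ℚ) (hR : ∀ r ∈ R, 0 < 2 * r - X) {D0 : ℕ}
    (hD0 : 1 ≤ D0) :
    ∃ D E : ℕ, 1 ≤ D ∧ 1 ≤ E ∧ D0 ∣ D ∧ ∃ a0 : ℤ,
      Link (t ^ 2 + (X : K) * t) t (1 / Phi e1 e2 e3 X) D E a0 ∧
      ∀ r ∈ R, ∃ a : ℤ, Link (t ^ 2 + (X : K) * t) ((t + (r : K)) ^ 2)
        ((2 * r - X) / Phi e1 e2 e3 X) D E a ∧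
        2 * (a : ℚ) - 2 * a0 = D * (Phi e1 e2 e3 X / (2 * r - X)) := by
  obtain ⟨Φ, hΦe⟩ : ∃ Φ : ℚ, Φ = Phi e1 e2 e3 X := ⟨_, rfl⟩
  rw [← hΦe] at hΦ ⊢
  obtain ⟨β, hβ⟩ : ∃ β : ℚ, β = -(X ^ 2 + 2 * e1 * X + e1 ^ 2 - e2) / 2 := ⟨_, rfl⟩
  obtain ⟨ρ, hρ⟩ : ∃ ρ : ℚ, ρ = e3 * (e1 + 2 * X) := ⟨_, rfl⟩
  obtain ⟨c, hc⟩ : ∃ c : ℚ → ℚ, c = fun r => -β - Φ / (4 * (2 * r - X)) -
    ((2 * r - X) / Φ) * (ρ + β ^ 2) + r ^ 2 := ⟨_, rfl⟩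
  obtain ⟨D1, hD1, hDl⟩ := common_den (β :: R.map fun r => β + Φ / (2 * r - X) / 2)
  obtain ⟨E, hE, hEl⟩ := common_den ((1 / Φ) :: (-(ρ + β ^ 2) / Φ) ::
    ((R.map fun r => (2 * r - X) / Φ) ++ R.map c))
  have hlat : ∀ b : ℚ, b ∈ (β :: R.map fun r => β + Φ / (2 * r - X) / 2) →
      ((D0 * D1 : ℕ) : ℚ) * b ∈ ZZ := fun b hb => mul_mem_ZZ_of_dvd (dvd_mul_left _ _) (hDl b hb)
  have key : (t ^ 2 + (X : K) * t + (β : K)) ^ 2 = (Φ : K) * t + (ρ + β ^ 2 : ℚ) := by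
    have h2 : 2 * (β : K) = -(X ^ 2 + 2 * e1 * X + e1 ^ 2 - e2) := by
      rw [hβ]; push_cast; ring
    have h4 : (Φ : K) = -(X ^ 3 + 2 * e1 * X ^ 2 + (e1 ^ 2 + e2) * X + (e1 * e2 - e3)) := by
      rw [hΦe]; unfold Phi; push_cast; ring
    have h5 : (ρ : K) = e3 * (e1 + 2 * X) := by rw [hρ]; push_cast; ring
    push_cast
    rw [h4, h5]
    linear_combination (t + e1 + 2 * X) * rel + (t ^ 2 + X * t) * h2
  have hΦK : (Φ : K) ≠ 0 := by exact_mod_cast hΦ.ne'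
  obtain ⟨a0, ha0⟩ := mem_ZZ.1 (hlat β (by simp))
  refine ⟨D0 * D1, E, Nat.mul_pos hD0 hD1, hE, dvd_mul_right _ _, a0,
    ⟨by positivity, β, -(ρ + β ^ 2) / Φ, ?_, ha0, mem_ZZ.1 (hEl _ (by simp)),
      mem_ZZ.1 (hEl _ (by simp))⟩, fun r hr => ?_⟩
  · rw [key]; push_cast; field_simp; ring
  · have hW := hR r hr
    have hWK : (((2 * r - X : ℚ)) : K) ≠ 0 := by exact_mod_cast hW.ne'
    obtain ⟨a, ha⟩ := mem_ZZ.1 (hlat (β + Φ / (2 * r - X) / 2)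
      (List.mem_cons_of_mem _ (List.mem_map.2 ⟨r, hr, rfl⟩)))
    refine ⟨a, ⟨by positivity, β + Φ / (2 * r - X) / 2, c r, ?_, ha,
      mem_ZZ.1 (hEl _ (List.mem_cons_of_mem _ (List.mem_cons_of_mem _ (List.mem_append_left _
        (List.mem_map.2 ⟨r, hr, rfl⟩))))),
      mem_ZZ.1 (hEl _ (List.mem_cons_of_mem _ (List.mem_cons_of_mem _ (List.mem_append_right _
        (List.mem_map.2 ⟨r, hr, rfl⟩)))))⟩, ?_⟩
    · have e : (((2 * r - X) / Φ : ℚ) : K) * (t ^ 2 + (X : K) * t +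
          ((β + Φ / (2 * r - X) / 2 : ℚ) : K)) ^ 2 =
          (((2 * r - X) / Φ : ℚ) : K) * (t ^ 2 + (X : K) * t + (β : K)) ^ 2 +
            (t ^ 2 + (X : K) * t + (β : K)) + ((Φ / (4 * (2 * r - X)) : ℚ) : K) := by
        have h1 : ((Φ / (2 * r - X) : ℚ) : K) * (((2 * r - X) / Φ : ℚ) : K) = 1 := by
          have : Φ / (2 * r - X) * ((2 * r - X) / Φ) = 1 := by field_simp
          exact_mod_cast this
        have h2 : ((Φ / (4 * (2 * r - X)) : ℚ) : K) = ((Φ / (2 * r - X) : ℚ) : K) / 4 := by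
          have : Φ / (4 * (2 * r - X)) = Φ / (2 * r - X) / 4 := by field_simp
          rw [this]; push_cast; ring
        have h3 : ((β + Φ / (2 * r - X) / 2 : ℚ) : K) =
            (β : K) + ((Φ / (2 * r - X) : ℚ) : K) / 2 := by push_cast; ring
        rw [h2, h3]
        linear_combination ((t ^ 2 + (X : K) * t + (β : K)) +
          ((Φ / (2 * r - X) : ℚ) : K) / 4) * h1
      rw [e, key, hc]
      push_cast
      field_simp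
      ring
    · rw [ha, ha0]; field_simp; ring

end Pool.Agent.Lib_helper48.PAIR
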