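import Mathlib
import Pool.Agent.Lib_helper48.PAIR.Node
import Pool.Agent.Lib_helper11.CUB4.Squares

/-!
Cubic fields: `t` together with two squares `(t + r)^2` (`p ≠ 2`) or with three squares in
progression (every `p`).
-/

namespace Pool.Agent.Lib_helper48.PAIR

open Pool.Agent.Lib_helper11.CUB Pool.Agent.Lib_helper3.QUI Pool.Agent.Lib_helper48.CNT Polynomial
open Pool.Agent.Lib_helper48.EVEN (Gen gen_affine gen_sq affine_not_mem)
open Pool.Agent.Lib_helper11.CUB4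

variable {K : Type*} [Field K] [NumberField K]

/-- The basic relation: `h(|2r' - 2r| N) = e(t) e((t + r)^2)` for all large odd `N`. -/
theorem tr_rel (h3 : Module.finrank ℚ K = 3) {t : K} (ht : t ∉ (⊥ : IntermediateField ℚ K))
    {r r' : ℚ} (hr : r ≠ r') :
    ∃ N0 : ℕ, ∀ N : ℕ, N0 ≤ N → Odd N →
      Ev [t, (t + (r : K)) ^ 2, (t + (r' : K)) ^ 2]
        (fun h e => H h (|2 * r' - 2 * r| * N) = e t * e ((t + (r : K)) ^ 2)) := by
  have hd : Odd (Module.finrank ℚ K) := by rw [h3]; decide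
  obtain ⟨e1, e2, e3, rel⟩ := cubic_rel h3 ht
  obtain ⟨R0, hR0, hΦ⟩ := Phi_pos e1 e2 e3
  obtain ⟨d, hd'⟩ : ∃ d : ℚ, d = |2 * r' - 2 * r| := ⟨_, rfl⟩
  have hd0 : 0 < d := by
    rw [hd']
    apply abs_pos.2
    intro h
    exact hr (by linarith)
  obtain ⟨N1, hN1⟩ := exists_nat_ge ((R0 + |2 * r|) / d)
  rw [div_le_iff₀ hd0] at hN1
  refine ⟨N1 + 2, fun N hN hodd => ?_⟩
  rw [← hd']
  have hNq : (N1 : ℚ) + 2 ≤ N := by exact_mod_cast hN
  have hNd : (N1 : ℚ) * d ≤ N * d := mul_le_mul_of_nonneg_right (by linarith) hd0.le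
  obtain ⟨X, hX⟩ : ∃ X : ℚ, X = 2 * r - d * N := ⟨_, rfl⟩
  have hΦX : 0 < Phi e1 e2 e3 X := by
    have := hΦ (-X) (by rw [hX]; linarith [le_abs_self (2 * r)])
    rwa [neg_neg] at this
  -- the sign of the difference
  obtain ⟨M, hM, hMe⟩ : ∃ M : ℕ, Even M ∧ 2 * r' - X = d * M := by
    obtain ⟨j, hj⟩ := hodd
    rcases abs_choice (2 * r' - 2 * r) with h1 | h1
    · refine ⟨N + 1, ⟨j + 1, by omega⟩, ?_⟩
      rw [← hd'] at h1
      push_cast
      rw [hX]; linarith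
    · refine ⟨N - 1, ⟨j, by omega⟩, ?_⟩
      rw [← hd'] at h1
      rw [Nat.cast_sub (by omega)]
      push_cast
      rw [hX]; linarith
  have hW : 2 * r - X = d * N := by rw [hX]; ring
  have hNpos : (0 : ℚ) < N := by
    have : (0 : ℚ) ≤ N1 := Nat.cast_nonneg _
    linarith
  have hMpos : 0 < 2 * r' - X := by
    have h2 : |2 * r' - 2 * r| = d := hd'.symm
    have h3 := neg_abs_le (2 * r' - 2 * r)
    rw [h2] at h3
    have h4 : d * 2 ≤ d * N := mul_le_mul_of_nonneg_left (by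
      have : (0 : ℚ) ≤ N1 := Nat.cast_nonneg _
      linarith) hd0.le
    rw [hX]; linarith
  have hMq : (0 : ℚ) < M := by
    rw [hMe] at hMpos
    exact (pos_iff_pos_of_mul_pos hMpos).1 hd0
  obtain ⟨D, E, hD, hE, -, a0, l0, HL⟩ := node_links rel hΦX [r, r'] (by
    intro z hz
    simp only [List.mem_cons, List.not_mem_nil, or_false] at hz
    rcases hz with rfl | rfl
    · rw [hW]; positivity
    · exact hMpos) le_rfl
  obtain ⟨a, l1, f1⟩ := HL r (by simp)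
  obtain ⟨a', l2, f2⟩ := HL r' (by simp)
  have hw := node_not_mem h3 ht X
  rw [hW] at l1 f1
  rw [hMe] at l2 f2
  obtain ⟨L, hL⟩ : ∃ L : List K, L = [t, (t + (r : K)) ^ 2, (t + (r' : K)) ^ 2] := ⟨_, rfl⟩
  rw [← hL]
  have R1 := EvP.compare hw hD hE
    (EvP.of_links hd hw hD hE l0 l1 (L := L) (by simp [hL]) (by simp [hL]))
    (EvP.of_links hd hw hD hE l0 l2 (L := L) (by simp [hL]) (by simp [hL]))
    (r := N) (s := M) (by
      have : ((N : ℤ) : ℚ) * (2 * a - 2 * a0) = ((M : ℤ) : ℚ) * (2 * a' - 2 * a0) := by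
        rw [f1, f2]; push_cast; field_simp
      exact_mod_cast this)
  refine ((R1.and (Ev.signs L)).sub (fun y hy => by
    rcases List.mem_append.1 hy with h | h <;> exact h)).imp ?_
  rintro h hh e ⟨k1, k2⟩
  have v0 := k2 t (by simp [hL])
  have v1 := k2 ((t + (r : K)) ^ 2) (by simp [hL])
  have v2 := k2 ((t + (r' : K)) ^ 2) (by simp [hL])
  have p0 : H h (1 / Phi e1 e2 e3 X) = 1 ∨ H h (1 / Phi e1 e2 e3 X) = -1 := H_vals hh (by positivity)
  have p1 : H h (d * N / Phi e1 e2 e3 X) = 1 ∨ H h (d * N / Phi e1 e2 e3 X) = -1 :=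
    H_vals hh (by positivity)
  have p2 : H h (d * M / Phi e1 e2 e3 X) = 1 ∨ H h (d * M / Phi e1 e2 e3 X) = -1 :=
    H_vals hh (by positivity)
  rw [pm_odd (pm_mul (pm_mul p0 v0) (pm_mul p1 v1)) hodd,
    pm_even (pm_mul (pm_mul p0 v0) (pm_mul p2 v2)) hM] at k1
  have h6 : H h (d * N / Phi e1 e2 e3 X) = H h (d * N) * H h (1 / Phi e1 e2 e3 X) := by
    have h5 : d * N / Phi e1 e2 e3 X = (d * N) * (1 / Phi e1 e2 e3 X) := by ring
    rw [h5]
    exact H_mul hh (by positivity) (by positivity)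
  have hH : H h (d * N) = H h (1 / Phi e1 e2 e3 X) * H h (d * N / Phi e1 e2 e3 X) := by
    have h7 := H_sq hh (show (1 / Phi e1 e2 e3 X) ≠ 0 by positivity)
    rw [h6]
    linear_combination (-(H h (d * N))) * h7
  rw [hH]
  have s0 := pm_sq v0
  have s1 := pm_sq v1
  have q0 := pm_sq p0
  have q1 := pm_sq p1
  rcases p0 with p0 | p0 <;> rcases p1 with p1 | p1 <;> rcases v0 with v0 | v0 <;>
    rcases v1 with v1 | v1 <;> rw [p0, p1, v0, v1] at k1 ⊢ <;> omega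

theorem odd_three (h3 : Module.finrank ℚ K = 3) {t : K} (ht : t ∉ (⊥ : IntermediateField ℚ K))
    {r r' : ℚ} (hr : r ≠ r') {p : ℕ} (hp : p.Prime) (hp2 : p ≠ 2) :
    Ev [t, (t + (r : K)) ^ 2, (t + (r' : K)) ^ 2] (fun h _ => h p = 1) := by
  obtain ⟨N0, HN⟩ := tr_rel h3 ht hr
  have hpodd := hp.odd_of_ne_two hp2
  have ho : Odd (2 * N0 + 1) := ⟨N0, rfl⟩
  have R1 := HN (2 * N0 + 1) (by omega) ho
  have R2 := HN (p * (2 * N0 + 1)) (by nlinarith [hp.pos]) (hpodd.mul ho)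
  refine ((R1.and R2).sub (fun y hy => by
    rcases List.mem_append.1 hy with h | h <;> exact h)).imp ?_
  rintro h hh e ⟨k1, k2⟩
  have hd0 : (0 : ℚ) < |2 * r' - 2 * r| := abs_pos.2 (fun h => hr (by linarith))
  have e1 : |2 * r' - 2 * r| * ((p * (2 * N0 + 1) : ℕ) : ℚ) =
      (p : ℚ) * (|2 * r' - 2 * r| * ((2 * N0 + 1 : ℕ) : ℚ)) := by push_cast; ring
  have hp0 : (p : ℚ) ≠ 0 := by exact_mod_cast hp.ne_zero
  have hN0 : |2 * r' - 2 * r| * ((2 * N0 + 1 : ℕ) : ℚ) ≠ 0 := by positivity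
  rw [e1, H_mul hh hp0 hN0, H_nat hh, ← k1] at k2
  rcases H_vals hh hN0 with h1 | h1 <;> rw [h1] at k2 <;> linarith

theorem four_ev' (h3 : Module.finrank ℚ K = 3) {t : K} (ht : t ∉ (⊥ : IntermediateField ℚ K))
    (r : ℚ) {c : ℚ} (hc : c ≠ 0) {p : ℕ} (hp : p.Prime) :
    Ev [t, (t + (r : K)) ^ 2, (t + ((r + c : ℚ) : K)) ^ 2, (t + ((r + 2 * c : ℚ) : K)) ^ 2]
      (fun h _ => h p = 1) := by
  by_cases hp2 : p = 2
  · subst hp2
    obtain ⟨N1, H1⟩ := tr_rel h3 ht (r := r) (r' := r + c) (by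
      intro h; exact hc (by linarith))
    obtain ⟨N2, H2⟩ := tr_rel h3 ht (r := r) (r' := r + 2 * c) (by
      intro h; exact hc (by linarith))
    have ho : Odd (2 * (N1 + N2) + 1) := ⟨N1 + N2, rfl⟩
    have R1 := H1 (2 * (N1 + N2) + 1) (by omega) ho
    have R2 := H2 (2 * (N1 + N2) + 1) (by omega) ho
    refine ((R1.and R2).sub ?_).imp ?_
    · intro y hy
      simp only [List.cons_append, List.nil_append, List.mem_cons, List.not_mem_nil,
        or_false] at hy ⊢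
      tauto
    · rintro h hh e ⟨k1, k2⟩
      have e0 : |2 * (r + c) - 2 * r| = 2 * |c| := by
        have : 2 * (r + c) - 2 * r = 2 * c := by ring
        rw [this, abs_mul, abs_of_pos two_pos]
      have e1 : |2 * (r + 2 * c) - 2 * r| = 2 * (2 * |c|) := by
        have : 2 * (r + 2 * c) - 2 * r = 2 * (2 * c) := by ring
        rw [this, abs_mul, abs_mul, abs_of_pos two_pos]
      have hc0 : 0 < |c| := abs_pos.2 hc
      have hN0 : 2 * |c| * ((2 * (N1 + N2) + 1 : ℕ) : ℚ) ≠ 0 := by positivity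
      have e2 : 2 * (2 * |c|) * ((2 * (N1 + N2) + 1 : ℕ) : ℚ) =
          ((2 : ℕ) : ℚ) * (2 * |c| * ((2 * (N1 + N2) + 1 : ℕ) : ℚ)) := by push_cast; ring
      rw [e0] at k1
      rw [e1, e2, H_mul hh (by norm_num) hN0, H_nat hh, ← k1] at k2
      rcases H_vals hh hN0 with h1 | h1 <;> rw [h1] at k2 <;> linarith
  · refine (odd_three h3 ht (r := r) (r' := r + c) (by intro h; exact hc (by linarith)) hp hp2).sub ?_
    intro y hy
    simp only [List.mem_cons, List.not_mem_nil, or_false] at hy ⊢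
    tauto

theorem gen_add {t : K} (ht : Gen t) (r : ℚ) : Gen (t + (r : K)) := by
  have := gen_affine ht (r := 1) one_ne_zero r
  simpa using this

/-- Cubic fields, odd primes: `t` and any two squares `(t + r)^2`, `(t + r')^2`. -/
theorem count_cubic_three (h3 : Module.finrank ℚ K = 3) {t : K}
    (ht : t ∉ (⊥ : IntermediateField ℚ K)) {r r' : ℚ} (hr : r ≠ r') {p : ℕ} (hp : p.Prime)
    (hp2 : p ≠ 2) :
    ∃ m : ℕ, 1 ≤ m ∧ ∀ v : ℕ, 1 ≤ v → m ∣ v →
      (∀ z ∈ [t, (t + (r : K)) ^ 2, (t + (r' : K)) ^ 2], IsIntegral ℤ ((v : K) * z) ∧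
        Irreducible (minpoly ℤ ((v : K) * z)) ∧ (minpoly ℤ ((v : K) * z)).natDegree = 3) ∧
      ∃ C : ℕ, ∀ h : ℕ → ℤ, CM h → h p = -1 → ∀ x : ℕ, 1 ≤ x →
        ∃ z ∈ [t, (t + (r : K)) ^ 2, (t + (r' : K)) ^ 2], ∀ s : ℤ, (s = 1 ∨ s = -1) →
          x < 4 * ((Finset.Icc x (C * x ^ 2)).filter (fun n : ℕ =>
            h ((minpoly ℤ ((v : K) * z)).eval (n : ℤ)).natAbs = s)).card := by
  have hd : Odd (Module.finrank ℚ K) := by rw [h3]; decide
  have h1 : 1 < Module.finrank ℚ K := by rw [h3]; norm_num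
  have hgt := gen_cubic h3 ht
  have hG : ∀ z ∈ [t, (t + (r : K)) ^ 2, (t + (r' : K)) ^ 2], Gen z := by
    intro z hz
    simp only [List.mem_cons, List.not_mem_nil, or_false] at hz
    rcases hz with rfl | rfl | rfl
    · exact hgt
    · exact gen_sq hd (gen_add hgt r)
    · exact gen_sq hd (gen_add hgt r')
  obtain ⟨m, hm, H⟩ := windows_count hd h1 hG (Q := fun h => h p) (odd_three h3 ht hr hp hp2)
  refine ⟨m, hm, fun v hv hmv => ?_⟩
  obtain ⟨hint, C, H⟩ := H v hv hmv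
  refine ⟨fun z hz => ?_, C, fun h hh hhp x hx => H h hh (by rw [hhp]; norm_num) x hx⟩
  obtain ⟨-, k1, k2⟩ := gen_poly (hG z hz) hv (hint z hz)
  exact ⟨hint z hz, k1, by rw [k2, h3]⟩

/-- Cubic fields, all primes: `t` and any three squares `(t + r)^2` in progression. -/
theorem count_cubic_four (h3 : Module.finrank ℚ K = 3) {t : K}
    (ht : t ∉ (⊥ : IntermediateField ℚ K)) (r : ℚ) {c : ℚ} (hc : c ≠ 0) {p : ℕ} (hp : p.Prime) :
    ∃ m : ℕ, 1 ≤ m ∧ ∀ v : ℕ, 1 ≤ v → m ∣ v →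
      (∀ z ∈ [t, (t + (r : K)) ^ 2, (t + ((r + c : ℚ) : K)) ^ 2, (t + ((r + 2 * c : ℚ) : K)) ^ 2],
        IsIntegral ℤ ((v : K) * z) ∧
        Irreducible (minpoly ℤ ((v : K) * z)) ∧ (minpoly ℤ ((v : K) * z)).natDegree = 3) ∧
      ∃ C : ℕ, ∀ h : ℕ → ℤ, CM h → h p = -1 → ∀ x : ℕ, 1 ≤ x →
        ∃ z ∈ [t, (t + (r : K)) ^ 2, (t + ((r + c : ℚ) : K)) ^ 2,
            (t + ((r + 2 * c : ℚ) : K)) ^ 2], ∀ s : ℤ, (s = 1 ∨ s = -1) →
          x < 4 * ((Finset.Icc x (C * x ^ 2)).filter (fun n : ℕ =>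
            h ((minpoly ℤ ((v : K) * z)).eval (n : ℤ)).natAbs = s)).card := by
  have hd : Odd (Module.finrank ℚ K) := by rw [h3]; decide
  have h1 : 1 < Module.finrank ℚ K := by rw [h3]; norm_num
  have hgt := gen_cubic h3 ht
  have hG : ∀ z ∈ [t, (t + (r : K)) ^ 2, (t + ((r + c : ℚ) : K)) ^ 2,
      (t + ((r + 2 * c : ℚ) : K)) ^ 2], Gen z := by
    intro z hz
    simp only [List.mem_cons, List.not_mem_nil, or_false] at hz
    rcases hz with rfl | rfl | rfl | rfl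
    · exact hgt
    · exact gen_sq hd (gen_add hgt r)
    · exact gen_sq hd (gen_add hgt _)
    · exact gen_sq hd (gen_add hgt _)
  obtain ⟨m, hm, H⟩ := windows_count hd h1 hG (Q := fun h => h p) (four_ev' h3 ht r hc hp)
  refine ⟨m, hm, fun v hv hmv => ?_⟩
  obtain ⟨hint, C, H⟩ := H v hv hmv
  refine ⟨fun z hz => ?_, C, fun h hh hhp x hx => H h hh (by rw [hhp]; norm_num) x hx⟩
  obtain ⟨-, k1, k2⟩ := gen_poly (hG z hz) hv (hint z hz)
  exact ⟨hint z hz, k1, by rw [k2, h3]⟩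

end Pool.Agent.Lib_helper48.PAIR
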