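import Mathlib
import Pool.Agent.Lib_helper48.PAIR.Chain
import Pool.Agent.Lib_helper48.PAIR.Exp
import Pool.Agent.Lib_helper48.PAIR.Triple

/-!
Cubic fields: `t` together with one square `(t + r)^2`.
-/

namespace Pool.Agent.Lib_helper48.PAIR

open Pool.Agent.Lib_helper11.CUB Pool.Agent.Lib_helper3.QUI Pool.Agent.Lib_helper48.CNT Polynomial
open Pool.Agent.Lib_helper48.EVEN (Gen gen_affine gen_sq affine_not_mem)
open Pool.Agent.Lib_helper11.CUB4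

variable {K : Type*} [Field K] [NumberField K]

/-- The values of `w = (t + δ)^2 + c` along squares. -/
theorem value_sq (hd : Odd (Module.finrank ℚ K)) {t w y : K}
    (ht : t ∉ (⊥ : IntermediateField ℚ K)) {δ c r : ℚ} (hw : w = (t + (δ : K)) ^ 2 + (c : K))
    (hy : y = (t + (r : K)) ^ 2) {h : ℕ → ℤ} (hh : CM h) (j : ℚ) :
    G h w (j ^ 2 + c) = G h t (j - δ) * G h y ((j + δ - r) ^ 2) * G h t (j + δ - 2 * r) := by
  have l1 := link hd ht (α := δ) (q := 1) (c := c) one_pos (y := w) (by rw [hw]; push_cast; ring)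
    hh (j + δ)
  have l2 := link hd ht (α := r) (q := 1) (c := 0) one_pos (y := y) (by rw [hy]; push_cast; ring)
    hh (j + δ)
  have h1 := H_one hh
  have e1 : 1 * (j + δ - δ) ^ 2 + c = j ^ 2 + c := by ring
  have e2 : 1 * (j + δ - r) ^ 2 + 0 = (j + δ - r) ^ 2 := by ring
  have e3 : j + δ - 2 * δ = j - δ := by ring
  rw [h1, e1, e3] at l1
  rw [h1, e2] at l2
  have s1 := G_sq hh ht (j - δ)
  rw [l1] at l2
  linear_combination (G h t (j - δ)) * l2 - (G h w (j ^ 2 + c)) * s1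

/-- The chains at `w = t^2 + X t`: the multiplier of the period is `1`. -/
theorem pair_rel (h3 : Module.finrank ℚ K = 3) {t : K} (ht : t ∉ (⊥ : IntermediateField ℚ K))
    (r : ℚ) :
    ∃ W0 : ℚ, 0 < W0 ∧ ∀ W : ℚ, W0 ≤ W →
      EvE 4 [t, (t + (r : K)) ^ 2] (fun h e => H h W = e t * e ((t + (r : K)) ^ 2)) := by
  have hd : Odd (Module.finrank ℚ K) := by rw [h3]; decide
  obtain ⟨e1, e2, e3, rel⟩ := cubic_rel h3 ht
  obtain ⟨R0, hR0, hΦ⟩ := Phi_pos e1 e2 e3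
  refine ⟨R0 + |2 * r|, by linarith [abs_nonneg (2 * r)], fun W hW => ?_⟩
  have hW0 : 0 < W := by linarith [abs_nonneg (2 * r)]
  obtain ⟨X, hX⟩ : ∃ X : ℚ, X = 2 * r - W := ⟨_, rfl⟩
  have hΦX : 0 < Phi e1 e2 e3 X := by
    have := hΦ (-X) (by rw [hX]; linarith [le_abs_self (2 * r)])
    rwa [neg_neg] at this
  have hWX : 2 * r - X = W := by rw [hX]; ring
  obtain ⟨Φ, hΦe⟩ : ∃ Φ : ℚ, Φ = Phi e1 e2 e3 X := ⟨_, rfl⟩
  -- the period `P = Φ / W`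
  obtain ⟨P, hP⟩ : ∃ P : ℚ, P = Φ / W := ⟨_, rfl⟩
  have hP0 : 0 < P := by rw [hP, hΦe]; positivity
  obtain ⟨Pn, hPn⟩ : ∃ Pn : ℕ, (Pn : ℤ) = P.num := by
    obtain ⟨n, hn⟩ := Int.eq_ofNat_of_zero_le (Rat.num_pos.2 hP0).le
    exact ⟨n, hn.symm⟩
  obtain ⟨Pd, hPd⟩ : ∃ Pd : ℕ, Pd = P.den := ⟨_, rfl⟩
  have hPd0 : 1 ≤ Pd := by rw [hPd]; exact P.den_pos
  have hPn0 : 1 ≤ Pn := by
    have := Rat.num_pos.2 hP0
    omega
  have hPdq : (0 : ℚ) < Pd := by exact_mod_cast hPd0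
  have hPdq1 : (1 : ℚ) ≤ Pd := by exact_mod_cast hPd0
  have hPnq : (1 : ℚ) ≤ Pn := by exact_mod_cast hPn0
  have hPq : P = Pn / Pd := by
    have h1 : ((Pn : ℤ) : ℚ) = (P.num : ℚ) := by rw [hPn]
    rw [Int.cast_natCast] at h1
    rw [h1, hPd, Rat.num_div_den]
  -- lattices
  obtain ⟨D1, hD1, hDl⟩ := common_den [1 / (4 * (Pd : ℚ)), X / 2, r]
  obtain ⟨D, E, hD, hE, hDD, a0, l0, HL⟩ := node_links rel hΦX [r] (by
    intro z hz
    simp only [List.mem_cons, List.not_mem_nil, or_false] at hz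
    rw [hz, hWX]; exact hW0) (D0 := D1 ^ 2) (Nat.one_le_pow _ _ hD1)
  obtain ⟨a, l1, f1⟩ := HL r (by simp)
  rw [hWX, ← hΦe] at l1 f1
  rw [← hΦe] at l0
  rw [← hP] at f1
  have hw := node_not_mem h3 ht X
  obtain ⟨w, hwe⟩ : ∃ w : K, w = t ^ 2 + (X : K) * t := ⟨_, rfl⟩
  rw [← hwe] at l0 l1 hw
  obtain ⟨y, hye⟩ : ∃ y : K, y = (t + (r : K)) ^ 2 := ⟨_, rfl⟩
  rw [← hye] at l1 ⊢
  have hDq : (0 : ℚ) < D := by exact_mod_cast hD
  obtain ⟨k, hk⟩ : ∃ k : ℕ, (k : ℤ) = 2 * a - 2 * a0 := by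
    have h1 : (0 : ℚ) ≤ ((2 * a - 2 * a0 : ℤ) : ℚ) := by
      push_cast; rw [f1]; positivity
    obtain ⟨n, hn⟩ := Int.eq_ofNat_of_zero_le (by exact_mod_cast h1 : (0 : ℤ) ≤ 2 * a - 2 * a0)
    exact ⟨n, hn.symm⟩
  have hkq : (k : ℚ) = D * P := by
    rw [← f1]
    have : ((k : ℤ) : ℚ) = ((2 * a - 2 * a0 : ℤ) : ℚ) := by rw [hk]
    push_cast at this
    exact this
  have hk1 : 1 ≤ k := by
    have : (0 : ℚ) < (k : ℚ) := by rw [hkq]; positivity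
    exact_mod_cast this
  obtain ⟨N1, c1, hc1, H1⟩ := half_gen hd hw hD hE l0
  obtain ⟨N2, c2, hc2, H2⟩ := half_gen hd hw hD hE l1
  obtain ⟨N, hN⟩ : ∃ N : ℕ, N = N1 + N2 := ⟨_, rfl⟩
  -- constants
  obtain ⟨g0, hg0⟩ := exists_nat_ge (|X| + 2 * |r| + X ^ 2)
  obtain ⟨κ0, hκ0⟩ : ∃ κ0 : ℕ, κ0 = 1 + g0 + N := ⟨_, rfl⟩
  obtain ⟨b, hb⟩ : ∃ b : ℕ, b = 9 + (2 * a).natAbs := ⟨_, rfl⟩
  obtain ⟨κ2, hκ2⟩ : ∃ κ2 : ℕ, κ2 = κ0 + 1 + 2 * Pn * b := ⟨_, rfl⟩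
  obtain ⟨κ3, hκ3⟩ : ∃ κ3 : ℕ, κ3 = κ2 + g0 := ⟨_, rfl⟩
  obtain ⟨q0, hq0⟩ : ∃ q : ℚ, q = 1 / Φ := ⟨_, rfl⟩
  obtain ⟨q1, hq1⟩ : ∃ q : ℚ, q = W / Φ := ⟨_, rfl⟩
  rw [← hq0] at l0 H1
  rw [← hq1] at l1 H2
  have hΦ0 : 0 < Φ := by rw [hΦe]; exact hΦX
  have hq00 : 0 < q0 := by rw [hq0]; positivity
  have hq10 : 0 < q1 := by rw [hq1]; positivity
  obtain ⟨C, hC⟩ : ∃ C : ℚ, C = 2 + (κ3 : ℚ) + (κ3 : ℚ) ^ 2 +
    (q0 * ((κ2 : ℚ) ^ 2 + N1) ^ 2 + c1) + (q1 * ((κ2 : ℚ) ^ 2 + N2) ^ 2 + c2) := ⟨_, rfl⟩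
  have hC2 : 2 ≤ C := by
    have : (0 : ℚ) ≤ (κ3 : ℚ) + (κ3 : ℚ) ^ 2 + (q0 * ((κ2 : ℚ) ^ 2 + N1) ^ 2 + c1) +
      (q1 * ((κ2 : ℚ) ^ 2 + N2) ^ 2 + c2) := by positivity
    rw [hC]; linarith
  refine ⟨D ^ 2 * E, Nat.mul_pos (pow_pos hD 2) hE, C, hC2, fun h hh x hx e hs hall => ?_⟩
  have hxq : (1 : ℚ) ≤ x := by exact_mod_cast hx
  have hx0 : (0 : ℚ) ≤ x := by linarith
  have hx2 : (1 : ℚ) ≤ (x : ℚ) ^ 2 := one_le_pow₀ hxq
  have hx4 : (1 : ℚ) ≤ (x : ℚ) ^ 4 := one_le_pow₀ hxq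
  have hxx4 : (x : ℚ) ≤ (x : ℚ) ^ 4 := by
    calc (x : ℚ) = (x : ℚ) ^ 1 := (pow_one _).symm
      _ ≤ (x : ℚ) ^ 4 := pow_le_pow_right₀ hxq (by norm_num)
  have hx24 : (x : ℚ) ^ 2 ≤ (x : ℚ) ^ 4 := pow_le_pow_right₀ hxq (by norm_num)
  have v0 := hs t (by simp)
  have v1 := hs y (by simp)
  have M0 := hall t (by simp)
  have M1 := hall y (by simp)
  obtain ⟨X4, hX4⟩ : ∃ X4 : ℚ, X4 = C * (x : ℚ) ^ 4 := ⟨_, rfl⟩
  rw [← hX4] at M0 M1
  unfold Maj at M0 M1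
  have hqA : 0 ≤ q0 * ((κ2 : ℚ) ^ 2 + N1) ^ 2 := by positivity
  have hqB : 0 ≤ q1 * ((κ2 : ℚ) ^ 2 + N2) ^ 2 := by positivity
  have hX4' : X4 = 2 * (x : ℚ) ^ 4 + κ3 * (x : ℚ) ^ 4 + (κ3 : ℚ) ^ 2 * (x : ℚ) ^ 4 +
      (q0 * ((κ2 : ℚ) ^ 2 + N1) ^ 2 * (x : ℚ) ^ 4 + c1 * (x : ℚ) ^ 4) +
      (q1 * ((κ2 : ℚ) ^ 2 + N2) ^ 2 * (x : ℚ) ^ 4 + c2 * (x : ℚ) ^ 4) := by
    rw [hX4, hC]; ring
  have n1 : 0 ≤ κ3 * (x : ℚ) ^ 4 := by positivity
  have n2 : 0 ≤ (κ3 : ℚ) ^ 2 * (x : ℚ) ^ 4 := by positivity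
  have n3 : 0 ≤ q0 * ((κ2 : ℚ) ^ 2 + N1) ^ 2 * (x : ℚ) ^ 4 := by positivity
  have n4 : c1 ≤ c1 * (x : ℚ) ^ 4 := le_mul_of_one_le_right hc1 hx4
  have n5 : 0 ≤ q1 * ((κ2 : ℚ) ^ 2 + N2) ^ 2 * (x : ℚ) ^ 4 := by positivity
  have n6 : c2 ≤ c2 * (x : ℚ) ^ 4 := le_mul_of_one_le_right hc2 hx4
  -- the period
  obtain ⟨A, hA⟩ : ∃ A : ℤ, A = D * N * x := ⟨_, rfl⟩
  obtain ⟨B, hB⟩ : ∃ B : ℤ, B = D * κ2 ^ 2 * x ^ 2 := ⟨_, rfl⟩
  have hAq : (A : ℚ) = D * N * x := by rw [hA]; push_cast; ring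
  have hBq : (B : ℚ) / D = (κ2 : ℚ) ^ 2 * (x : ℚ) ^ 2 := by rw [hB]; push_cast; field_simp
  have hN1N : (N1 : ℚ) ≤ N := by rw [hN]; push_cast; linarith [Nat.cast_nonneg (α := ℚ) N2]
  have hN2N : (N2 : ℚ) ≤ N := by rw [hN]; push_cast; linarith [Nat.cast_nonneg (α := ℚ) N1]
  have sizeB : ∀ (q : ℚ) (N' : ℕ), 0 < q →
      q * ((B : ℚ) / D + N') ^ 2 ≤ q * ((κ2 : ℚ) ^ 2 + N') ^ 2 * (x : ℚ) ^ 4 := by
    intro q N' hq
    rw [hBq]
    have h1 : (κ2 : ℚ) ^ 2 * (x : ℚ) ^ 2 + N' ≤ ((κ2 : ℚ) ^ 2 + N') * (x : ℚ) ^ 2 := by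
      have : (N' : ℚ) * 1 ≤ N' * (x : ℚ) ^ 2 := mul_le_mul_of_nonneg_left hx2 (Nat.cast_nonneg _)
      linarith
    have h2 : ((κ2 : ℚ) ^ 2 * (x : ℚ) ^ 2 + N') ^ 2 ≤ (((κ2 : ℚ) ^ 2 + N') * (x : ℚ) ^ 2) ^ 2 :=
      pow_le_pow_left₀ (by positivity) h1 2
    have h3 := mul_le_mul_of_nonneg_left h2 hq.le
    have h4 : q * (((κ2 : ℚ) ^ 2 + N') * (x : ℚ) ^ 2) ^ 2 =
        q * ((κ2 : ℚ) ^ 2 + N') ^ 2 * (x : ℚ) ^ 4 := by ring
    linarith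
  have L1 : Lk (F h D w) (F h D (-w)) A B (2 * a0) (H h q0 * e t) x := by
    refine (H1 h hh x X4 hxq A B ?_ ?_ (e t)).trans (by omega)
    · rw [hAq]
      exact mul_le_mul_of_nonneg_right (mul_le_mul_of_nonneg_left hN1N hDq.le) hx0
    · have := sizeB q0 N1 hq00
      rw [hX4']; linarith
  have L2 : Lk (F h D w) (F h D (-w)) A B (2 * a) (H h q1 * e y) x := by
    refine (H2 h hh x X4 hxq A B ?_ ?_ (e y)).trans (by omega)
    · rw [hAq]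
      exact mul_le_mul_of_nonneg_right (mul_le_mul_of_nonneg_left hN2N hDq.le) hx0
    · have := sizeB q1 N2 hq10
      rw [hX4']; linarith
  have p0 : H h q0 = 1 ∨ H h q0 = -1 := H_vals hh hq00.ne'
  have p1 : H h q1 = 1 ∨ H h q1 = -1 := H_vals hh hq10.ne'
  have hper := L1.per L2 (by
    have h1 := pm_sq (pm_mul p0 v0)
    rw [sq] at h1
    exact h1)
  rw [← hk] at hper
  -- the chains
  obtain ⟨J, hJ⟩ : ∃ J : ℕ, J = κ0 * x := ⟨_, rfl⟩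
  obtain ⟨S, hS⟩ : ∃ S : ℕ, S = b * x := ⟨_, rfl⟩
  obtain ⟨j, hj⟩ : ∃ j : ℕ → ℚ, j = fun (s : ℕ) => (J : ℚ) + 1 / (4 * Pd) + 2 * Pn * (s : ℚ) := ⟨_, rfl⟩
  have hjs : ∀ s, j s = (J : ℚ) + 1 / (4 * Pd) + 2 * Pn * s := fun s => by rw [hj]
  have hD1z : ((D1 : ℤ) : ℚ) ∈ ZZ := int_mem _
  rw [Int.cast_natCast] at hD1z
  have lj : ∀ s, (D1 : ℚ) * j s ∈ ZZ := by
    intro s
    have h1 := hDl (1 / (4 * (Pd : ℚ))) (by simp)
    have h2 : ((((D1 : ℤ) * J + D1 * (2 * Pn * s) : ℤ)) : ℚ) ∈ ZZ := int_mem _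
    have h3 := add_mem h2 h1
    have e : (((((D1 : ℤ) * J + D1 * (2 * Pn * s) : ℤ)) : ℚ)) + (D1 : ℚ) * (1 / (4 * Pd)) =
        D1 * j s := by rw [hjs]; push_cast; ring
    rwa [e] at h3
  have lX : (D1 : ℚ) * (X / 2) ∈ ZZ := hDl _ (by simp)
  have lr : (D1 : ℚ) * r ∈ ZZ := hDl _ (by simp)
  obtain ⟨g, hg⟩ := hDD
  have hgz : ((g : ℤ) : ℚ) ∈ ZZ := int_mem _
  rw [Int.cast_natCast] at hgz
  have hDg : (D : ℚ) = (D1 : ℚ) ^ 2 * g := by rw [hg]; push_cast; ring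
  have hm : ∀ s, ∃ m : ℤ, (m : ℚ) = D * ((j s) ^ 2 - X ^ 2 / 4) := by
    intro s
    have h1 : (g : ℚ) * ((D1 * j s) ^ 2 - (D1 * (X / 2)) ^ 2) ∈ ZZ :=
      mul_mem hgz (sub_mem (pow_mem (lj s) 2) (pow_mem lX 2))
    have e : (g : ℚ) * ((D1 * j s) ^ 2 - (D1 * (X / 2)) ^ 2) = D * ((j s) ^ 2 - X ^ 2 / 4) := by
      rw [hDg]; ring
    rw [e] at h1
    exact mem_ZZ.1 h1
  choose m hm using hm
  have absX := abs_nonneg X
  have absr := abs_nonneg r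
  have sqX := sq_nonneg X
  have g0' : |X| + 2 * |r| + X ^ 2 ≤ g0 * x :=
    hg0.trans (le_mul_of_one_le_right (Nat.cast_nonneg _) hxq)
  have hNx : (0 : ℚ) ≤ N * x := by positivity
  have hJq : (J : ℚ) = x + g0 * x + N * x := by rw [hJ, hκ0]; push_cast; ring
  have hfrac0 : (0 : ℚ) ≤ 1 / (4 * Pd) := by positivity
  have hfrac1 : 1 / (4 * (Pd : ℚ)) ≤ 1 := by
    rw [div_le_one (by positivity)]; linarith
  have jlow : ∀ s, (J : ℚ) ≤ j s := by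
    intro s
    have : (0 : ℚ) ≤ 2 * Pn * s := by positivity
    rw [hjs]; linarith
  have jhigh : ∀ s ≤ S, j s ≤ κ2 * x := by
    intro s hs
    have h1 : (s : ℚ) ≤ b * x := by
      have : (s : ℚ) ≤ S := by exact_mod_cast hs
      rw [hS] at this; push_cast at this; exact this
    have h2 : 2 * (Pn : ℚ) * s ≤ 2 * Pn * (b * x) := mul_le_mul_of_nonneg_left h1 (by positivity)
    have h3 : (κ2 : ℚ) * x = κ0 * x + x + 2 * Pn * (b * x) := by rw [hκ2]; push_cast; ring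
    have h4 : (J : ℚ) = κ0 * x := by rw [hJ]; push_cast; ring
    rw [hjs, h3, h4]; linarith
  have X1 := le_abs_self X
  have X2 := neg_abs_le X
  have r1 := le_abs_self r
  have r2 := neg_abs_le r
  have jinj : ∀ s s', j s = j s' → s = s' := by
    intro s s' h
    rw [hjs, hjs] at h
    have h1 : 2 * (Pn : ℚ) * s = 2 * Pn * s' := by linarith
    have h2 : (s : ℚ) = s' := mul_left_cancel₀ (by positivity) h1
    exact_mod_cast h2
  have hκ3x : (κ3 : ℚ) * x = κ2 * x + g0 * x := by rw [hκ3]; push_cast; ring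
  have hκ3x4 : (κ3 : ℚ) * x ≤ κ3 * (x : ℚ) ^ 4 := mul_le_mul_of_nonneg_left hxx4 (Nat.cast_nonneg _)
  have hκ3x2 : ((κ3 : ℚ) * x) ^ 2 ≤ (κ3 : ℚ) ^ 2 * (x : ℚ) ^ 4 := by
    rw [mul_pow]
    exact mul_le_mul_of_nonneg_left hx24 (by positivity)
  have hX40 : (0 : ℚ) ≤ 2 * (x : ℚ) ^ 4 := by positivity
  have hDE : 1 ≤ D ^ 2 * E := Nat.mul_pos (pow_pos hD 2) hE
  have hDEz : ((((D ^ 2 * E : ℕ) : ℤ)) : ℚ) ∈ ZZ := int_mem _
  have lat1 : ∀ u : ℚ, (D1 : ℚ) * u ∈ ZZ → ∃ m : ℤ, (m : ℚ) = ((D ^ 2 * E : ℕ) : ℚ) * u := by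
    intro u hu
    have h1 : ((((D1 * g * D * E : ℕ) : ℤ)) : ℚ) * (D1 * u) ∈ ZZ := mul_mem (int_mem _) hu
    have e : ((((D1 * g * D * E : ℕ) : ℤ)) : ℚ) * (D1 * u) = ((D ^ 2 * E : ℕ) : ℚ) * u := by
      push_cast
      have : (D : ℚ) ^ 2 = D * (D1 ^ 2 * g) := by rw [← hDg]; ring
      rw [this]; ring
    rw [e] at h1
    exact mem_ZZ.1 h1
  have lat2 : ∀ u : ℚ, (D1 : ℚ) * u ∈ ZZ → ∃ m : ℤ, (m : ℚ) = ((D ^ 2 * E : ℕ) : ℚ) * u ^ 2 := by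
    intro u hu
    have h1 : ((((g * D * E : ℕ) : ℤ)) : ℚ) * (D1 * u) ^ 2 ∈ ZZ :=
      mul_mem (int_mem _) (pow_mem hu 2)
    have e : ((((g * D * E : ℕ) : ℤ)) : ℚ) * (D1 * u) ^ 2 = ((D ^ 2 * E : ℕ) : ℚ) * u ^ 2 := by
      push_cast
      have : (D : ℚ) ^ 2 = D * (D1 ^ 2 * g) := by rw [← hDg]; ring
      rw [this]; ring
    rw [e] at h1
    exact mem_ZZ.1 h1
  have k1 := count_args (h := h) (z := t) (ε := e t) (x := x) (X := X4) hDE S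
    (fun s => j s - X / 2) (fun s s' hss => jinj s s' (by linarith))
    (fun s => lat1 _ (by
      have := sub_mem (lj s) lX
      have e : (D1 : ℚ) * j s - D1 * (X / 2) = D1 * (j s - X / 2) := by ring
      rwa [e] at this))
    (fun s _ => by have := jlow s; linarith)
    (fun s hs => by have := jhigh s hs; rw [hX4']; linarith)
  have k2 := count_args (h := h) (z := t) (ε := e t) (x := x) (X := X4) hDE S
    (fun s => j s + X / 2 - 2 * r) (fun s s' hss => jinj s s' (by linarith))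
    (fun s => lat1 _ (by
      have := sub_mem (sub_mem (add_mem (lj s) lX) lr) lr
      have e : (D1 : ℚ) * j s + D1 * (X / 2) - D1 * r - D1 * r =
          D1 * (j s + X / 2 - 2 * r) := by ring
      rwa [e] at this))
    (fun s _ => by have := jlow s; linarith)
    (fun s hs => by have := jhigh s hs; rw [hX4']; linarith)
  have bpos : ∀ s, (x : ℚ) ≤ j s + X / 2 - r := fun s => by have := jlow s; linarith
  have k3 := count_args (h := h) (z := y) (ε := e y) (x := x) (X := X4) hDE S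
    (fun s => (j s + X / 2 - r) ^ 2) (fun s s' hss => by
      have h1 := bpos s
      have h2 := bpos s'
      have h3 := (pow_left_inj₀ (by linarith) (by linarith) (by norm_num : (2 : ℕ) ≠ 0)).1 hss
      exact jinj s s' (by linarith))
    (fun s => lat2 _ (by
      have := sub_mem (add_mem (lj s) lX) lr
      have e : (D1 : ℚ) * j s + D1 * (X / 2) - D1 * r = D1 * (j s + X / 2 - r) := by ring
      rwa [e] at this))
    (fun s _ => by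
      have h1 := bpos s
      have h2 : (x : ℚ) * 1 ≤ (j s + X / 2 - r) * (j s + X / 2 - r) :=
        mul_le_mul h1 (hxq.trans h1) zero_le_one (hx0.trans h1)
      rw [mul_one, ← sq] at h2
      exact h2)
    (fun s hs => by
      have h1 := bpos s
      have h2 := jhigh s hs
      have h3 : (j s + X / 2 - r) ^ 2 ≤ ((κ3 : ℚ) * x) ^ 2 :=
        pow_le_pow_left₀ (by linarith) (by linarith) 2
      rw [hX4']; linarith)
  have hcard : ((Finset.range (S + 1)).filter (fun s => F h D w (m s) ≠ e y)).card ≤ 3 * x := by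
    have hsub : (Finset.range (S + 1)).filter (fun s => F h D w (m s) ≠ e y) ⊆
        ((Finset.range (S + 1)).filter (fun s => G h t (j s - X / 2) ≠ e t)) ∪
        ((Finset.range (S + 1)).filter (fun s => G h t (j s + X / 2 - 2 * r) ≠ e t)) ∪
        ((Finset.range (S + 1)).filter (fun s => G h y ((j s + X / 2 - r) ^ 2) ≠ e y)) := by
      intro s hs
      simp only [Finset.mem_filter, Finset.mem_union] at hs ⊢
      by_cases b1 : G h t (j s - X / 2) = e t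
      · by_cases b2 : G h t (j s + X / 2 - 2 * r) = e t
        · right
          refine ⟨hs.1, fun b3 => hs.2 ?_⟩
          unfold Pool.Agent.Lib_helper11.CUB4.F
          rw [hm s, mul_div_cancel_left₀ _ hDq.ne']
          have h1 := value_sq hd ht (w := w) (y := y) (δ := X / 2) (c := -(X ^ 2 / 4)) (r := r) (by
            rw [hwe]; push_cast; ring) hye hh (j s)
          have h2 : (j s) ^ 2 - X ^ 2 / 4 = (j s) ^ 2 + -(X ^ 2 / 4) := by ring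
          rw [h2, h1, b1, b2, b3]
          have h3 := pm_sq v0
          linear_combination (e y) * h3
        · left; right; exact ⟨hs.1, b2⟩
      · left; left; exact ⟨hs.1, b1⟩
    refine (Finset.card_le_card hsub).trans ((Finset.card_union_le _ _).trans
      ((Nat.add_le_add_right (Finset.card_union_le _ _) _).trans ?_))
    omega
  have fin := chain_odd hk1 (pm_mul (pm_mul p0 v0) (pm_mul p1 v1)) v1 hper m
    (fun s => 4 * Pd * J + 1 + 4 * Pd * Pn * (2 * s + 1))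
    (fun s _ => ⟨2 * Pd * J + 2 * Pd * Pn * (2 * s + 1), by ring⟩)
    (fun s _ => by
      have h1 : ((m (s + 1) : ℤ) : ℚ) =
          ((m s + ((4 * Pd * J + 1 + 4 * Pd * Pn * (2 * s + 1) : ℕ) : ℤ) * k : ℤ) : ℚ) := by
        push_cast
        rw [hm (s + 1), hm s, hkq, hjs, hjs, hPq]
        push_cast
        field_simp
        ring
      exact_mod_cast h1)
    (by
      have h1 : (A : ℚ) ≤ (m 0 : ℚ) := by
        rw [hAq, hm 0]
        have h2 := jlow 0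
        have h3 : (D : ℚ) * N * x = D * (N * x) := by ring
        rw [h3]
        apply mul_le_mul_of_nonneg_left _ hDq.le
        have h4 : (J : ℚ) * 1 ≤ j 0 * j 0 :=
          mul_le_mul h2 (by linarith) (by norm_num) (by linarith)
        rw [mul_one, ← sq] at h4
        linarith
      exact_mod_cast h1)
    (by
      have h1 : (m S : ℚ) ≤ (B : ℚ) := by
        rw [hm S, hB]
        push_cast
        have h2 := jhigh S le_rfl
        have h3 := jlow S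
        have h4 : (j S) ^ 2 ≤ (κ2 * x : ℚ) ^ 2 :=
          pow_le_pow_left₀ (by linarith [Nat.cast_nonneg (α := ℚ) J]) h2 2
        have h5 : (D : ℚ) * κ2 ^ 2 * x ^ 2 = D * (κ2 * x : ℚ) ^ 2 := by ring
        rw [h5]
        apply mul_le_mul_of_nonneg_left _ hDq.le
        linarith
      exact_mod_cast h1)
    hcard (by
      rw [hS, hb]
      have h1 : (2 * a).natAbs ≤ (2 * a).natAbs * x := Nat.le_mul_of_pos_right _ hx
      have h2 : (9 + (2 * a).natAbs) * x = 9 * x + (2 * a).natAbs * x := by ring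
      omega)
  have h6 : H h q1 = H h W * H h q0 := by
    have h5 : q1 = W * q0 := by rw [hq1, hq0]; ring
    rw [h5]
    exact H_mul hh hW0.ne' hq00.ne'
  have h7 := H_sq hh hq00.ne'
  have w0 := pm_sq v0
  have w1 := pm_sq v1
  rw [h6] at fin
  change H h W = e t * e y
  linear_combination (e t * e y) * fin - (H h W) * h7 * (e t) ^ 2 * (e y) ^ 2 -
    (H h W) * w0 * (e y) ^ 2 - (H h W) * w1

end Pool.Agent.Lib_helper48.PAIR
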