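import Mathlib
import Pool.Agent.Lib_helper48.PAIR.Pair

/-!
Cubic fields: the pair `t`, `(t + r)^2` for every prime.
-/

namespace Pool.Agent.Lib_helper48.PAIR

open Pool.Agent.Lib_helper11.CUB Pool.Agent.Lib_helper3.QUI Pool.Agent.Lib_helper48.CNT Polynomial
open Pool.Agent.Lib_helper48.EVEN (Gen gen_affine gen_sq affine_not_mem)
open Pool.Agent.Lib_helper11.CUB4

variable {K : Type*} [Field K] [NumberField K]

theorem pair_ev (h3 : Module.finrank ℚ K = 3) {t : K} (ht : t ∉ (⊥ : IntermediateField ℚ K))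
    (r : ℚ) {p : ℕ} (hp : p.Prime) :
    EvE 4 [t, (t + (r : K)) ^ 2] (fun h _ => h p = 1) := by
  obtain ⟨W0, hW0, HW⟩ := pair_rel h3 ht r
  have hp1 : (1 : ℚ) ≤ p := by exact_mod_cast hp.one_lt.le
  have R1 := HW W0 le_rfl
  have R2 := HW (p * W0) (le_mul_of_one_le_left hW0.le hp1)
  refine ((R1.and R2).sub (fun y hy => by
    rcases List.mem_append.1 hy with h | h <;> exact h)).imp ?_
  rintro h hh e ⟨k1, k2⟩
  have hp0 : (p : ℚ) ≠ 0 := by exact_mod_cast hp.ne_zero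
  rw [H_mul hh hp0 hW0.ne', H_nat hh, ← k1] at k2
  rcases H_vals hh hW0.ne' with h1 | h1 <;> rw [h1] at k2 <;> linarith

/-- Cubic fields, all primes: `t` and any one square `(t + r)^2`. -/
theorem count_cubic_pair (h3 : Module.finrank ℚ K = 3) {t : K}
    (ht : t ∉ (⊥ : IntermediateField ℚ K)) (r : ℚ) {p : ℕ} (hp : p.Prime) :
    ∃ m : ℕ, 1 ≤ m ∧ ∀ v : ℕ, 1 ≤ v → m ∣ v →
      (∀ z ∈ [t, (t + (r : K)) ^ 2], IsIntegral ℤ ((v : K) * z) ∧
        Irreducible (minpoly ℤ ((v : K) * z)) ∧ (minpoly ℤ ((v : K) * z)).natDegree = 3) ∧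
      ∃ C : ℕ, ∀ h : ℕ → ℤ, CM h → h p = -1 → ∀ x : ℕ, 1 ≤ x →
        ∃ z ∈ [t, (t + (r : K)) ^ 2], ∀ s : ℤ, (s = 1 ∨ s = -1) →
          x < 4 * ((Finset.Icc x (C * x ^ 4)).filter (fun n : ℕ =>
            h ((minpoly ℤ ((v : K) * z)).eval (n : ℤ)).natAbs = s)).card := by
  have hd : Odd (Module.finrank ℚ K) := by rw [h3]; decide
  have h1 : 1 < Module.finrank ℚ K := by rw [h3]; norm_num
  have hgt := gen_cubic h3 ht
  have hG : ∀ z ∈ [t, (t + (r : K)) ^ 2], Gen z := by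
    intro z hz
    simp only [List.mem_cons, List.not_mem_nil, or_false] at hz
    rcases hz with rfl | rfl
    · exact hgt
    · exact gen_sq hd (gen_add hgt r)
  obtain ⟨m, hm, H⟩ := windows_exp 4 hd h1 hG (Q := fun h => h p) (pair_ev h3 ht r hp)
  refine ⟨m, hm, fun v hv hmv => ?_⟩
  obtain ⟨hint, C, H⟩ := H v hv hmv
  refine ⟨fun z hz => ?_, C, fun h hh hhp x hx => H h hh (by rw [hhp]; norm_num) x hx⟩
  obtain ⟨-, k1, k2⟩ := gen_poly (hG z hz) hv (hint z hz)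
  exact ⟨hint z hz, k1, by rw [k2, h3]⟩

end Pool.Agent.Lib_helper48.PAIR
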